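import Mathlib

/-!
# Fractional Haemers bounds of fraction graphs: the rank inequality
-/

set_option autoImplicit false

open Module Submodule

namespace Pool.Agent.N703.HF

section span

variable {F : Type*} [Field F] {V : Type*} {d : ℕ}

/-- the span of the columns of the blocks `c x`, …, `c (x + m - 1)` -/
def Bs (M : Matrix (V × Fin d) (V × Fin d) F) (c : ℕ → V) (x m : ℕ) :
    Submodule F (V × Fin d → F) :=
  span F {y | ∃ s < m, ∃ j : Fin d, y = M.col (c (x + s), j)}

/-- its dimension -/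
noncomputable def bd (M : Matrix (V × Fin d) (V × Fin d) F) (c : ℕ → V) (x m : ℕ) : ℕ :=
  finrank F (Bs M c x m)

theorem bd_zero (M : Matrix (V × Fin d) (V × Fin d) F) (c : ℕ → V) (x : ℕ) : bd M c x 0 = 0 := by
  have h : Bs M c x 0 = ⊥ := by
    rw [Bs, span_eq_bot]
    rintro y ⟨s, hs, _⟩
    omega
  rw [bd, h]
  exact finrank_bot F _

theorem Bs_one (M : Matrix (V × Fin d) (V × Fin d) F) (c : ℕ → V) (x : ℕ) :
    Bs M c x 1 = span F (Set.range fun j : Fin d => M.col (c x, j)) := by
  unfold Bs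
  congr 1
  ext y
  constructor
  · rintro ⟨s, hs, j, rfl⟩
    obtain rfl : s = 0 := by omega
    exact ⟨j, rfl⟩
  · rintro ⟨j, rfl⟩
    exact ⟨0, by omega, j, rfl⟩

variable [Fintype V]

theorem bd_one (M : Matrix (V × Fin d) (V × Fin d) F) (c : ℕ → V)
    (hd : ∀ v i j, M (v, i) (v, j) = if i = j then 1 else 0) (x : ℕ) : bd M c x 1 = d := by
  rw [bd, Bs_one, finrank_span_eq_card, Fintype.card_fin]
  rw [Fintype.linearIndependent_iff]
  intro g hg i
  have h := congrFun hg (c x, i)
  simp only [Finset.sum_apply, Pi.smul_apply, Matrix.col_apply, hd, smul_eq_mul, mul_ite, mul_one,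
    mul_zero, Pi.zero_apply] at h
  rw [Finset.sum_ite_eq] at h
  simpa using h

theorem Bs_mono (M : Matrix (V × Fin d) (V × Fin d) F) (c : ℕ → V) (x y m n : ℕ) (h1 : y ≤ x)
    (h2 : x + m ≤ y + n) : Bs M c x m ≤ Bs M c y n := by
  apply span_mono
  rintro z ⟨s, hs, j, rfl⟩
  refine ⟨x + s - y, by omega, j, ?_⟩
  rw [show y + (x + s - y) = x + s by omega]

theorem Bs_succ_le (M : Matrix (V × Fin d) (V × Fin d) F) (c : ℕ → V) (x m : ℕ) :
    Bs M c x (m + 2) ≤ Bs M c x (m + 1) ⊔ Bs M c (x + 1) (m + 1) := by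
  rw [Bs, span_le]
  rintro z ⟨s, hs, j, rfl⟩
  rcases Nat.lt_or_ge s (m + 1) with h | h
  · exact mem_sup_left (subset_span ⟨s, h, j, rfl⟩)
  · refine mem_sup_right (subset_span ⟨s - 1, by omega, j, ?_⟩)
    rw [show x + 1 + (s - 1) = x + s by omega]

theorem bd_conc (M : Matrix (V × Fin d) (V × Fin d) F) (c : ℕ → V) (x m : ℕ) :
    bd M c x (m + 2) + bd M c (x + 1) m ≤ bd M c x (m + 1) + bd M c (x + 1) (m + 1) := by
  have h := finrank_sup_add_finrank_inf_eq (Bs M c x (m + 1)) (Bs M c (x + 1) (m + 1))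
  have h1 : bd M c x (m + 2) ≤ finrank F ↥(Bs M c x (m + 1) ⊔ Bs M c (x + 1) (m + 1)) :=
    finrank_mono (Bs_succ_le M c x m)
  have h2 : bd M c (x + 1) m ≤ finrank F ↥(Bs M c x (m + 1) ⊓ Bs M c (x + 1) (m + 1)) :=
    finrank_mono (le_inf (Bs_mono M c _ _ _ _ (by omega) (by omega))
      (Bs_mono M c _ _ _ _ (by omega) (by omega)))
  unfold bd at *
  omega

theorem bd_rank (M : Matrix (V × Fin d) (V × Fin d) F) (c : ℕ → V) (x m : ℕ) :
    bd M c x m ≤ M.rank := by
  rw [Matrix.rank_eq_finrank_span_cols]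
  apply finrank_mono
  apply span_mono
  rintro z ⟨s, hs, j, rfl⟩
  exact ⟨_, rfl⟩

theorem bd_disj (M : Matrix (V × Fin d) (V × Fin d) F) (c : ℕ → V)
    (hd : ∀ v i j, M (v, i) (v, j) = if i = j then 1 else 0) (p q : ℕ) (hq : 1 ≤ q)
    (hz : ∀ x k, q ≤ k → k + q ≤ p → ∀ i j, M (c (x + k), i) (c x, j) = 0) (x m : ℕ)
    (hm : m + 2 * q ≤ p + 1) : bd M c x m + d ≤ bd M c x (m + q) := by
  have h := finrank_sup_add_finrank_inf_eq (Bs M c x m) (Bs M c (x + m + q - 1) 1)
  have hinf : Bs M c x m ⊓ Bs M c (x + m + q - 1) 1 = ⊥ := by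
    rw [eq_bot_iff]
    rintro z ⟨hz1, hz2⟩
    have h1 : ∀ i, z (c (x + m + q - 1), i) = 0 := by
      intro i
      have : Bs M c x m ≤ LinearMap.ker (LinearMap.proj (R := F) (φ := fun _ : V × Fin d => F)
          (c (x + m + q - 1), i)) := by
        rw [Bs, span_le]
        rintro y ⟨s, hs, j, rfl⟩
        rw [SetLike.mem_coe, LinearMap.mem_ker, LinearMap.proj_apply, Matrix.col_apply]
        have := hz (x + s) (m + q - 1 - s) (by omega) (by omega) i j
        rwa [show x + s + (m + q - 1 - s) = x + m + q - 1 by omega] at this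
      exact this hz1
    rw [SetLike.mem_coe, Bs_one, mem_span_range_iff_exists_fun] at hz2
    obtain ⟨g, rfl⟩ := hz2
    have h2 : ∀ i, g i = 0 := by
      intro i
      have := h1 i
      simp only [Finset.sum_apply, Pi.smul_apply, Matrix.col_apply, hd, smul_eq_mul, mul_ite,
        mul_one, mul_zero] at this
      rw [Finset.sum_ite_eq] at this
      simpa using this
    simp [h2]
  rw [hinf, finrank_bot] at h
  have h1 : finrank F ↥(Bs M c x m ⊔ Bs M c (x + m + q - 1) 1) ≤ bd M c x (m + q) :=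
    finrank_mono (sup_le (Bs_mono M c _ _ _ _ (by omega) (by omega))
      (Bs_mono M c _ _ _ _ (by omega) (by omega)))
  have h2 := bd_one M c hd (x + m + q - 1)
  unfold bd at *
  omega

end span

/-! ### Concave sequences -/

theorem conc_up (a : ℕ → ℤ) (hc : ∀ m, a (m + 2) + a m ≤ 2 * a (m + 1)) (m k : ℕ) :
    a (m + k) - a m ≤ k * (a (m + 1) - a m) := by
  have hdec : ∀ n, a (m + n + 1) - a (m + n) ≤ a (m + 1) - a m := by
    intro n
    induction n with
    | zero => simp
    | succ n ih =>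
      have := hc (m + n)
      rw [show m + (n + 1) + 1 = m + n + 2 by omega, show m + (n + 1) = m + n + 1 by omega]
      linarith
  induction k with
  | zero => simp
  | succ k ih =>
    have := hdec k
    rw [show m + (k + 1) = m + k + 1 by omega]
    push_cast
    linarith

theorem conc_down (a : ℕ → ℤ) (hc : ∀ m, a (m + 2) + a m ≤ 2 * a (m + 1)) (m : ℕ) :
    m * (a (m + 2) - a (m + 1)) ≤ a (m + 1) - a 1 := by
  induction m with
  | zero => simp
  | succ m ih =>
    have h := hc (m + 1)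
    rw [show m + 1 + 2 = m + 3 by omega, show m + 1 + 1 = m + 2 by omega] at *
    push_cast
    have h2 : a (m + 3) - a (m + 2) ≤ a (m + 2) - a (m + 1) := by linarith
    have h3 : (m : ℤ) * (a (m + 3) - a (m + 2)) ≤ m * (a (m + 2) - a (m + 1)) :=
      mul_le_mul_of_nonneg_left h2 (by positivity)
    linarith

section main

variable {F : Type*} [Field F] {V : Type*} [Fintype V] {d : ℕ}

/-- the rank inequality -/
theorem rank_ge (M : Matrix (V × Fin d) (V × Fin d) F) (c : ℕ → V) (p q : ℕ) (hq : 1 ≤ q)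
    (hpq : 2 * q ≤ p) (hper : ∀ x, c (x + p) = c x)
    (hd : ∀ v i j, M (v, i) (v, j) = if i = j then 1 else 0)
    (hz : ∀ x k, q ≤ k → k + q ≤ p → ∀ i j, M (c (x + k), i) (c x, j) = 0) :
    p * d ≤ q * M.rank := by
  set a : ℕ → ℤ := fun m => ∑ x ∈ Finset.range p, (bd M c x m : ℤ) with ha
  have hshift : ∀ m, ∑ x ∈ Finset.range p, (bd M c (x + 1) m : ℤ) = a m := by
    intro m
    have h1 := Finset.sum_range_succ (fun x => (bd M c x m : ℤ)) p
    have h2 := Finset.sum_range_succ' (fun x => (bd M c x m : ℤ)) p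
    have h3 : bd M c p m = bd M c 0 m := by
      have h4 : Bs M c p m = Bs M c 0 m := by
        unfold Bs
        have : ∀ s, c (p + s) = c (0 + s) := by
          intro s
          rw [zero_add, add_comm, hper]
        simp only [this]
      unfold bd
      rw [h4]
    rw [h3] at h1
    change ∑ x ∈ Finset.range p, (bd M c (x + 1) m : ℤ) = ∑ x ∈ Finset.range p, (bd M c x m : ℤ)
    linarith
  have hc : ∀ m, a (m + 2) + a m ≤ 2 * a (m + 1) := by
    intro m
    have e1 := hshift m
    have e2 := hshift (m + 1)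
    have e3 : ∑ x ∈ Finset.range p, (bd M c x (m + 2) : ℤ) +
        ∑ x ∈ Finset.range p, (bd M c (x + 1) m : ℤ) ≤
        ∑ x ∈ Finset.range p, (bd M c x (m + 1) : ℤ) +
        ∑ x ∈ Finset.range p, (bd M c (x + 1) (m + 1) : ℤ) := by
      rw [← Finset.sum_add_distrib, ← Finset.sum_add_distrib]
      apply Finset.sum_le_sum
      intro x _
      exact_mod_cast bd_conc M c x m
    rw [e1, e2] at e3
    change a (m + 2) + a m ≤ a (m + 1) + a (m + 1) at e3
    linarith
  have h1 : a 1 = p * d := by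
    simp only [ha, bd_one M c hd]
    simp
  obtain ⟨e, he⟩ : ∃ e, p = 2 * q + e := ⟨p - 2 * q, by omega⟩
  have h2 : a (e + 1) + p * d ≤ a (e + 1 + q) := by
    have : a (e + 1) + p * d = ∑ x ∈ Finset.range p, ((bd M c x (e + 1) : ℤ) + d) := by
      simp only [ha]
      rw [Finset.sum_add_distrib]
      simp
    rw [this]
    apply Finset.sum_le_sum
    intro x _
    exact_mod_cast bd_disj M c hd p q hq hz x (e + 1) (by omega)
  have h3 : a (e + 1 + q) ≤ p * M.rank := by
    have : (p : ℤ) * M.rank = ∑ x ∈ Finset.range p, (M.rank : ℤ) := by simp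
    rw [this]
    apply Finset.sum_le_sum
    intro x _
    exact_mod_cast bd_rank M c x _
  have h4 := conc_up a hc (e + 1) q
  have h5 := conc_down a hc e
  rw [show e + 1 + 1 = e + 2 by omega] at h4
  -- `D = a (e + 2) - a (e + 1)`, `p d ≤ q D`, `e D ≤ a (e + 1) - p d`
  set D := a (e + 2) - a (e + 1) with hD
  have h6 : (p : ℤ) * d ≤ q * D := by linarith
  have h7 : (e : ℤ) * D ≤ a (e + 1) - p * d := by rw [← h1]; exact h5
  have h8 : (q : ℤ) * (2 * (p * d)) + e * (p * d) ≤ q * (p * M.rank) := by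
    have h9 : (e : ℤ) * (p * d) ≤ e * (q * D) := mul_le_mul_of_nonneg_left h6 (by positivity)
    have h10 : (q : ℤ) * (e * D) ≤ q * (a (e + 1) - p * d) :=
      mul_le_mul_of_nonneg_left h7 (by positivity)
    have h11 : (q : ℤ) * (a (e + 1) + p * d) ≤ q * (p * M.rank) :=
      mul_le_mul_of_nonneg_left (h2.trans h3) (by positivity)
    nlinarith
  have hp : (0 : ℤ) < p := by
    have : 0 < p := by omega
    exact_mod_cast this
  have h12 : (p : ℤ) * (p * d) ≤ p * (q * M.rank) := by
    have : (p : ℤ) = 2 * q + e := by exact_mod_cast he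
    calc (p : ℤ) * (p * d) = q * (2 * (p * d)) + e * (p * d) := by
          nth_rewrite 1 [this]; ring
      _ ≤ q * (p * M.rank) := h8
      _ = p * (q * M.rank) := by ring
  have h13 : (p : ℤ) * d ≤ q * M.rank := le_of_mul_le_mul_left h12 hp
  exact_mod_cast h13

end main

end Pool.Agent.N703.HF
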