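import Pool.Agent.N703.HF.Core

/-!
# The fractional Haemers bound
-/

set_option autoImplicit false

open Module Submodule

namespace Pool.Agent.N703.HF

/-- The block matrix `M` with blocks of size `d` indexed by the vertices is a representation of the
graph `G` over `F`: the diagonal blocks are identity matrices and the block of two distinct
nonadjacent vertices is zero. -/
def IsRep (F : Type*) [Field F] {V : Type} (G : SimpleGraph V) (d : ℕ)
    (M : Matrix (V × Fin d) (V × Fin d) F) : Prop :=
  (∀ v i j, M (v, i) (v, j) = if i = j then 1 else 0) ∧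
    ∀ u v, u ≠ v → ¬ G.Adj u v → ∀ i j, M (u, i) (v, j) = 0

/-- The fractional Haemers bound of a graph over the field `F`: the infimum of `rank M / d` over all
`d ≥ 1` and all representations `M` with blocks of size `d`. -/
noncomputable def Hf (F : Type*) [Field F] (V : Type) [Fintype V] (G : SimpleGraph V) : ℝ :=
  sInf {x : ℝ | ∃ d : ℕ, 0 < d ∧ ∃ M : Matrix (V × Fin d) (V × Fin d) F,
    IsRep F G d M ∧ x = (M.rank : ℝ) / (d : ℝ)}

section basic

variable {F : Type*} [Field F] {V : Type} [Fintype V] {G : SimpleGraph V}

theorem Hf_le {d : ℕ} (hd : 0 < d) {M : Matrix (V × Fin d) (V × Fin d) F} (hM : IsRep F G d M) :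
    Hf F V G ≤ (M.rank : ℝ) / (d : ℝ) := by
  apply csInf_le
  · refine ⟨0, ?_⟩
    rintro x ⟨d, _, M, _, rfl⟩
    positivity
  · exact ⟨d, hd, M, hM, rfl⟩

theorem le_Hf {a : ℝ} (h : ∀ d : ℕ, 0 < d → ∀ M : Matrix (V × Fin d) (V × Fin d) F,
    IsRep F G d M → a ≤ (M.rank : ℝ) / (d : ℝ)) : a ≤ Hf F V G := by
  classical
  apply le_csInf
  · refine ⟨_, 1, one_pos, (1 : Matrix (V × Fin 1) (V × Fin 1) F), ⟨?_, ?_⟩, rfl⟩
    · intro v i j
      simp [Matrix.one_apply]
    · intro u v huv _ i j
      simp [Matrix.one_apply, huv]
  · rintro x ⟨d, hd, M, hM, rfl⟩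
    exact h d hd M hM

theorem Hf_nonneg : 0 ≤ Hf F V G := le_Hf fun d _ M _ => by positivity

end basic

/-- the arcs of length `q` -/
def arc (p q : ℕ) (hp : 0 < p) (x : ℕ) : Finset (Fin p) :=
  (Finset.range q).image fun t => ⟨(x + t) % p, Nat.mod_lt _ hp⟩

theorem arc_card (p q : ℕ) (hp : 0 < p) (hqp : q ≤ p) (x : ℕ) : (arc p q hp x).card = q := by
  unfold arc
  rw [Finset.card_image_of_injOn, Finset.card_range]
  intro s hs t ht h
  rw [Finset.mem_coe, Finset.mem_range] at hs ht
  have h1 : (x + s) % p = (x + t) % p := by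
    simpa using h
  have h2 : s ≡ t [MOD p] := Nat.ModEq.add_left_cancel' x h1
  exact h2.eq_of_lt_of_lt (by omega) (by omega)

theorem arc_disj (p q : ℕ) (hp : 0 < p) (x k : ℕ) (h1 : q ≤ k) (h2 : k + q ≤ p) :
    Disjoint (arc p q hp (x + k)) (arc p q hp x) := by
  rw [Finset.disjoint_left]
  intro a ha hb
  unfold arc at ha hb
  rw [Finset.mem_image] at ha hb
  obtain ⟨s, hs, rfl⟩ := ha
  obtain ⟨t, ht, h⟩ := hb
  rw [Finset.mem_range] at hs ht
  have h3 : (x + t) % p = (x + k + s) % p := by
    simpa using h
  have h4 : t ≡ k + s [MOD p] := by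
    apply Nat.ModEq.add_left_cancel' x
    rw [← add_assoc]
    exact h3
  have := h4.eq_of_lt_of_lt (by omega) (by omega)
  omega

/-- the value at the complement of the Kneser graph -/
theorem kneser (F : Type*) [Field F] (p q : ℕ) (hq : 1 ≤ q) (hpq : 2 * q ≤ p) :
    Hf F {s : Finset (Fin p) // s.card = q}
      (SimpleGraph.fromRel (fun s t : {s : Finset (Fin p) // s.card = q} =>
        Disjoint s.1 t.1))ᶜ = (p : ℝ) / (q : ℝ) := by
  classical
  have hp : 0 < p := by omega
  have hq0 : (0 : ℝ) < q := by exact_mod_cast hq
  apply le_antisymm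
  · -- the representation by inclusion matrices
    set e : {s : Finset (Fin p) // s.card = q} → Fin q → Fin p :=
      fun u i => u.1.orderEmbOfFin u.2 i with he
    have hmem : ∀ u i, e u i ∈ u.1 := fun u i => Finset.orderEmbOfFin_mem u.1 u.2 i
    set A : Matrix ({s : Finset (Fin p) // s.card = q} × Fin q) (Fin p) F :=
      fun u x => if e u.1 u.2 = x then 1 else 0 with hA
    have hM : ∀ u v i j, (A * A.transpose) (u, i) (v, j) = if e u i = e v j then (1 : F) else 0 := by
      intro u v i j
      rw [Matrix.mul_apply]
      simp only [hA, Matrix.transpose_apply, mul_ite, mul_one, mul_zero]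
      rw [Finset.sum_ite_eq]
      simp
    have hrep : IsRep F (SimpleGraph.fromRel (fun s t : {s : Finset (Fin p) // s.card = q} =>
        Disjoint s.1 t.1))ᶜ q (A * A.transpose) := by
      constructor
      · intro v i j
        rw [hM]
        have : e v i = e v j ↔ i = j := by
          simp only [he]
          exact (v.1.orderEmbOfFin v.2).injective.eq_iff
        simp only [this]
      · intro u v huv hadj i j
        rw [hM, if_neg]
        intro h
        rw [SimpleGraph.compl_adj, not_and, not_not] at hadj
        have h1 := hadj huv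
        rw [SimpleGraph.fromRel_adj] at h1
        have h2 : Disjoint u.1 v.1 := h1.2.elim id (fun h => h.symm)
        have h3 := hmem v j
        rw [← h] at h3
        exact (Finset.disjoint_left.1 h2 (hmem u i)) h3
    refine (Hf_le (by omega) hrep).trans ?_
    apply div_le_div_of_nonneg_right _ hq0.le
    have h1 : (A * A.transpose).rank ≤ p := by
      refine (Matrix.rank_mul_le_left _ _).trans ?_
      exact (Matrix.rank_le_card_width A).trans (by simp)
    exact_mod_cast h1
  · apply le_Hf
    intro d hd M hM
    have hd0 : (0 : ℝ) < d := by exact_mod_cast hd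
    rw [div_le_div_iff₀ hq0 hd0]
    have h := rank_ge M (fun x => (⟨arc p q hp x, arc_card p q hp (by omega) x⟩ :
      {s : Finset (Fin p) // s.card = q})) p q hq hpq ?_ hM.1 ?_
    · have h' : (p : ℝ) * d ≤ q * M.rank := by exact_mod_cast h
      linarith
    · intro x
      apply Subtype.ext
      change arc p q hp (x + p) = arc p q hp x
      unfold arc
      congr 1
      ext t
      change (x + p + t) % p = (x + t) % p
      rw [show x + p + t = x + t + p by omega, Nat.add_mod_right]
    · intro x k hk1 hk2 i j
      have hdis := arc_disj p q hp x k hk1 hk2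
      apply hM.2
      · intro h
        have h' : arc p q hp (x + k) = arc p q hp x := congrArg Subtype.val h
        rw [h', disjoint_self, Finset.bot_eq_empty] at hdis
        have := arc_card p q hp (by omega) x
        rw [hdis] at this
        simp at this
        omega
      · rw [SimpleGraph.compl_adj, not_and, not_not]
        intro hne
        rw [SimpleGraph.fromRel_adj]
        exact ⟨hne, Or.inl hdis⟩

end Pool.Agent.N703.HF
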