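import Pool.Agent.N703.HF.Defs

/-!
# The fractional Haemers bound is a spectral point
-/

set_option autoImplicit false

open Module Submodule

namespace Pool.Agent.N703.HF

section rank

variable {F : Type*} [Field F] {m n : Type} [Fintype m] [Fintype n]

theorem fact (M : Matrix m n F) :
    ∃ (A : Matrix m (Fin M.rank) F) (B : Matrix (Fin M.rank) n F), M = A * B := by
  have h : finrank F (span F (Set.range M.col)) = M.rank := (M.rank_eq_finrank_span_cols).symm
  let b := Module.finBasisOfFinrankEq F (span F (Set.range M.col)) h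
  refine ⟨fun i k => (b k : m → F) i,
    fun k j => b.repr ⟨M.col j, subset_span ⟨j, rfl⟩⟩ k, ?_⟩
  ext i j
  rw [Matrix.mul_apply]
  have h1 := b.sum_repr ⟨M.col j, subset_span ⟨j, rfl⟩⟩
  have h2 := congrArg (fun w : span F (Set.range M.col) => (w : m → F) i) h1
  simp only [Submodule.coe_sum, Submodule.coe_smul, Finset.sum_apply, Pi.smul_apply,
    smul_eq_mul, Matrix.col_apply] at h2
  rw [← h2]
  apply Finset.sum_congr rfl
  intro k _
  rw [mul_comm]

theorem lr [DecidableEq m] (M : Matrix m m F) (ρ : ℕ) (h : ρ ≤ M.rank) :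
    ∃ (L : Matrix (Fin ρ) m F) (R : Matrix m (Fin ρ) F), L * M * R = 1 := by
  obtain ⟨V, U, e, _, _, hVU⟩ := M.exists_rank_normal_form
  refine ⟨V.submatrix (fun k => e.symm (Sum.inl (Fin.castLE h k))) id,
    U.submatrix id (fun k => e.symm (Sum.inl (Fin.castLE h k))), ?_⟩
  ext i j
  have h1 : (V.submatrix (fun k => e.symm (Sum.inl (Fin.castLE h k))) id * M *
      U.submatrix id (fun k => e.symm (Sum.inl (Fin.castLE h k)))) i j =
      (V * M * U) (e.symm (Sum.inl (Fin.castLE h i))) (e.symm (Sum.inl (Fin.castLE h j))) := by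
    rw [Matrix.mul_apply, Matrix.mul_apply]
    apply Finset.sum_congr rfl
    intro k _
    rw [Matrix.mul_apply, Matrix.mul_apply]
    rfl
  rw [h1, hVU, Matrix.submatrix_apply, Equiv.apply_symm_apply, Equiv.apply_symm_apply,
    Matrix.fromBlocks_apply₁₁, Matrix.one_apply, Matrix.one_apply]
  simp

theorem rank_le_of_eq_mul {l : Type} [Fintype l] (M : Matrix m n F) (A : Matrix m l F)
    (B : Matrix l n F) (h : M = A * B) : M.rank ≤ Fintype.card l := by
  rw [h]
  exact (Matrix.rank_mul_le_left _ _).trans (Matrix.rank_le_card_width A)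

theorem rank_kron {a b : Type} [Fintype a] [Fintype b] {m' n' : Type} [Fintype m'] [Fintype n']
    (M : Matrix m n F) (M' : Matrix m' n' F) (f : a → m) (f' : a → m') (g : b → n) (g' : b → n') :
    (Matrix.of fun i j => M (f i) (g j) * M' (f' i) (g' j) : Matrix a b F).rank ≤
      M.rank * M'.rank := by
  obtain ⟨A, B, h⟩ := fact M
  obtain ⟨A', B', h'⟩ := fact M'
  have h2 := rank_le_of_eq_mul (l := Fin M.rank × Fin M'.rank)
    (Matrix.of fun i j => M (f i) (g j) * M' (f' i) (g' j) : Matrix a b F)
    (Matrix.of fun i k => A (f i) k.1 * A' (f' i) k.2)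
    (Matrix.of fun k j => B k.1 (g j) * B' k.2 (g' j)) ?_
  · simpa using h2
  · ext i j
    rw [Matrix.mul_apply, Matrix.of_apply]
    have e1 : M (f i) (g j) = ∑ k, A (f i) k * B k (g j) := by
      conv_lhs => rw [h]
      rw [Matrix.mul_apply]
    have e2 : M' (f' i) (g' j) = ∑ k, A' (f' i) k * B' k (g' j) := by
      conv_lhs => rw [h']
      rw [Matrix.mul_apply]
    rw [e1, e2, Finset.sum_mul_sum, ← Finset.univ_product_univ, Finset.sum_product]
    apply Finset.sum_congr rfl
    intro k _
    apply Finset.sum_congr rfl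
    intro l _
    simp only [Matrix.of_apply]
    ring

theorem rank_sum {a b : Type} [Fintype a] [Fintype b] {m' n' : Type} [Fintype m'] [Fintype n']
    (M : Matrix m n F) (M' : Matrix m' n' F) (K : Matrix a b F) (f : a → m ⊕ m') (g : b → n ⊕ n')
    (hK : ∀ i j, K i j = (Matrix.fromBlocks M 0 0 M') (f i) (g j)) :
    K.rank ≤ M.rank + M'.rank := by
  obtain ⟨A, B, h⟩ := fact M
  obtain ⟨A', B', h'⟩ := fact M'
  have h2 := rank_le_of_eq_mul (l := Fin M.rank ⊕ Fin M'.rank) K
    ((Matrix.fromBlocks A 0 0 A').submatrix f id) ((Matrix.fromBlocks B 0 0 B').submatrix id g) ?_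
  · simpa using h2
  · have h3 : Matrix.fromBlocks M 0 0 M' =
        Matrix.fromBlocks A 0 0 A' * Matrix.fromBlocks B 0 0 B' := by
      rw [Matrix.fromBlocks_multiply]
      simp only [Matrix.zero_mul, Matrix.mul_zero, add_zero, zero_add]
      rw [← h, ← h']
    ext i j
    rw [hK, h3, Matrix.mul_apply, Matrix.mul_apply]
    rfl

end rank

section values

variable {F : Type*} [Field F] {V W : Type} [Fintype V] [Fintype W] {G : SimpleGraph V}
  {H : SimpleGraph W}

theorem le_Hf_mul {h c : ℝ} (hc : 0 ≤ c) (hh : ∀ d : ℕ, 0 < d →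
    ∀ M : Matrix (V × Fin d) (V × Fin d) F, IsRep F G d M →
    h ≤ (M.rank : ℝ) / (d : ℝ) * c) : h ≤ Hf F V G * c := by
  rcases hc.eq_or_lt with rfl | hc
  · classical
    have := hh 1 one_pos 1 ⟨fun v i j => by simp [Matrix.one_apply],
      fun u v huv _ i j => by simp [Matrix.one_apply, huv]⟩
    simpa using this
  · have : h / c ≤ Hf F V G := by
      apply le_Hf
      intro d hd M hM
      rw [div_le_iff₀ hc]
      exact hh d hd M hM
    rwa [div_le_iff₀ hc] at this

/-- monotone -/
theorem Hf_mono (f : Gᶜ →g Hᶜ) : Hf F V G ≤ Hf F W H := by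
  apply le_Hf
  intro d hd M hM
  have hrep : IsRep F G d (M.submatrix (fun x : V × Fin d => (f x.1, x.2))
      (fun x : V × Fin d => (f x.1, x.2))) := by
    constructor
    · intro v i j
      rw [Matrix.submatrix_apply]
      exact hM.1 _ i j
    · intro u v huv hadj i j
      rw [Matrix.submatrix_apply]
      have h1 : Hᶜ.Adj (f u) (f v) := f.map_rel (by
        rw [SimpleGraph.compl_adj]
        exact ⟨huv, hadj⟩)
      rw [SimpleGraph.compl_adj] at h1
      exact hM.2 _ _ h1.1 h1.2 i j
  refine (Hf_le hd hrep).trans ?_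
  have := Matrix.rank_submatrix_le M (fun x : V × Fin d => (f x.1, x.2))
    (fun x : V × Fin d => (f x.1, x.2))
  gcongr

/-- submultiplicative -/
theorem Hf_mul_le : Hf F (V × W) (SimpleGraph.fromRel (fun x y : V × W =>
    (x.1 = y.1 ∨ G.Adj x.1 y.1) ∧ (x.2 = y.2 ∨ H.Adj x.2 y.2))) ≤ Hf F V G * Hf F W H := by
  apply le_Hf_mul Hf_nonneg
  intro d hd M hM
  rw [mul_comm]
  apply le_Hf_mul (by positivity)
  intro d' hd' M' hM'
  have hdd : 0 < d * d' := Nat.mul_pos hd hd'
  set K : Matrix ((V × W) × Fin (d * d')) ((V × W) × Fin (d * d')) F := Matrix.of fun i j =>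
    M (i.1.1, (finProdFinEquiv.symm i.2).1) (j.1.1, (finProdFinEquiv.symm j.2).1) *
    M' (i.1.2, (finProdFinEquiv.symm i.2).2) (j.1.2, (finProdFinEquiv.symm j.2).2) with hK
  have hrep : IsRep F (SimpleGraph.fromRel (fun x y : V × W =>
    (x.1 = y.1 ∨ G.Adj x.1 y.1) ∧ (x.2 = y.2 ∨ H.Adj x.2 y.2))) (d * d') K := by
    constructor
    · intro v i j
      simp only [hK, Matrix.of_apply]
      rw [hM.1, hM'.1]
      by_cases hij : i = j
      · subst hij
        simp
      · rw [if_neg hij]
        have : finProdFinEquiv.symm i ≠ finProdFinEquiv.symm j := fun h => hij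
          (finProdFinEquiv.symm.injective h)
        by_cases h1 : (finProdFinEquiv.symm i).1 = (finProdFinEquiv.symm j).1
        · have h2 : (finProdFinEquiv.symm i).2 ≠ (finProdFinEquiv.symm j).2 := fun h =>
            this (Prod.ext h1 h)
          rw [if_neg h2, mul_zero]
        · rw [if_neg h1, zero_mul]
    · intro u v huv hadj i j
      simp only [hK, Matrix.of_apply]
      rw [SimpleGraph.fromRel_adj] at hadj
      have h1 : ¬ ((u.1 = v.1 ∨ G.Adj u.1 v.1) ∧ (u.2 = v.2 ∨ H.Adj u.2 v.2)) := fun h =>
        hadj ⟨huv, Or.inl h⟩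
      rw [not_and_or, not_or, not_or] at h1
      rcases h1 with h1 | h1
      · rw [hM.2 _ _ h1.1 h1.2, zero_mul]
      · rw [hM'.2 _ _ h1.1 h1.2, mul_zero]
  refine (Hf_le hdd hrep).trans ?_
  have hr : K.rank ≤ M.rank * M'.rank := rank_kron M M' _ _ _ _
  have hd0 : (0 : ℝ) < d := by exact_mod_cast hd
  have hd0' : (0 : ℝ) < d' := by exact_mod_cast hd'
  have hr' : (K.rank : ℝ) ≤ M.rank * M'.rank := by exact_mod_cast hr
  have : (M'.rank : ℝ) / d' * (M.rank / d) = (M.rank * M'.rank) / ((d * d' : ℕ) : ℝ) := by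
    push_cast
    field_simp
  rw [this]
  gcongr

/-- supermultiplicative -/
theorem le_Hf_mul_prod : Hf F V G * Hf F W H ≤ Hf F (V × W) (SimpleGraph.fromRel
    (fun x y : V × W => (x.1 = y.1 ∨ G.Adj x.1 y.1) ∧ (x.2 = y.2 ∨ H.Adj x.2 y.2))) := by
  classical
  apply le_Hf
  intro d hd M hM
  have hd0 : (0 : ℝ) < d := by exact_mod_cast hd
  -- the diagonal blocks
  set N : V → Matrix (W × Fin d) (W × Fin d) F := fun u =>
    M.submatrix (fun x => ((u, x.1), x.2)) (fun x => ((u, x.1), x.2)) with hN
  have hNrep : ∀ u, IsRep F H d (N u) := by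
    intro u
    constructor
    · intro v i j
      exact hM.1 (u, v) i j
    · intro v w hvw hadj i j
      apply hM.2 (u, v) (u, w)
      · intro h
        exact hvw (congrArg Prod.snd h)
      · rw [SimpleGraph.fromRel_adj]
        rintro ⟨_, h | h⟩
        · rcases h.2 with h | h
          · exact hvw h
          · exact hadj h
        · rcases h.2 with h | h
          · exact hvw h.symm
          · exact hadj h.symm
  set ρ : ℕ := ⌈Hf F W H * d⌉₊ with hρ
  have hle : ∀ u, ρ ≤ (N u).rank := by
    intro u
    rw [hρ, Nat.ceil_le]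
    have := Hf_le hd (hNrep u)
    rwa [le_div_iff₀ hd0] at this
  have hρ' : Hf F W H * d ≤ ρ := Nat.le_ceil _
  rcases Nat.eq_zero_or_pos ρ with h0 | h0
  · rw [h0] at hρ'
    have h1 : Hf F W H ≤ 0 := by
      by_contra hcon
      have := mul_pos (not_le.1 hcon) hd0
      push_cast at hρ'
      linarith
    have h2 : Hf F W H = 0 := le_antisymm h1 Hf_nonneg
    rw [h2, mul_zero]
    positivity
  · choose L R hLR using fun u => lr (N u) ρ (hle u)
    set LL : Matrix (V × Fin ρ) ((V × W) × Fin d) F := Matrix.of fun i k =>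
      if i.1 = k.1.1 then L i.1 i.2 (k.1.2, k.2) else 0 with hLL
    set RR : Matrix ((V × W) × Fin d) (V × Fin ρ) F := Matrix.of fun k j =>
      if j.1 = k.1.1 then R j.1 (k.1.2, k.2) j.2 else 0 with hRR
    have hprod : ∀ i j, (LL * M * RR) i j = ∑ y : W × Fin d, (∑ x : W × Fin d,
        L i.1 i.2 x * M ((i.1, x.1), x.2) ((j.1, y.1), y.2)) * R j.1 y j.2 := by
      intro i j
      rw [Matrix.mul_apply]
      have hs : ∀ g : (V × W) × Fin d → F, ∑ k, g k =
          ∑ u : V, ∑ y : W × Fin d, g ((u, y.1), y.2) := by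
        intro g
        rw [Fintype.sum_prod_type, Fintype.sum_prod_type]
        apply Finset.sum_congr rfl
        intro u _
        rw [Fintype.sum_prod_type]
      rw [hs, Finset.sum_eq_single j.1]
      · apply Finset.sum_congr rfl
        intro y _
        congr 1
        · rw [Matrix.mul_apply, hs, Finset.sum_eq_single i.1]
          · apply Finset.sum_congr rfl
            intro x _
            simp [hLL]
          · intro u _ hu
            apply Finset.sum_eq_zero
            intro x _
            simp [hLL, hu.symm]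
          · intro h
            exact absurd (Finset.mem_univ _) h
        · simp [hRR]
      · intro u _ hu
        apply Finset.sum_eq_zero
        intro y _
        simp [hRR, hu.symm]
      · intro h
        exact absurd (Finset.mem_univ _) h
    have hrep : IsRep F G ρ (LL * M * RR) := by
      constructor
      · intro v i j
        rw [hprod]
        have h1 := congrFun (congrFun (hLR v) i) j
        rw [Matrix.mul_apply, Matrix.one_apply] at h1
        rw [← h1]
        apply Finset.sum_congr rfl
        intro y _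
        rw [Matrix.mul_apply]
        rfl
      · intro u v huv hadj i j
        rw [hprod]
        apply Finset.sum_eq_zero
        intro y _
        rw [Finset.sum_eq_zero, zero_mul]
        intro x _
        rw [hM.2 (u, x.1) (v, y.1), mul_zero]
        · intro h
          exact huv (congrArg Prod.fst h)
        · rw [SimpleGraph.fromRel_adj]
          rintro ⟨_, h | h⟩
          · rcases h.1 with h | h
            · exact huv h
            · exact hadj h
          · rcases h.1 with h | h
            · exact huv h.symm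
            · exact hadj h.symm
    have h1 := Hf_le h0 hrep
    have h2 : (LL * M * RR).rank ≤ M.rank :=
      (Matrix.rank_mul_le_left _ _).trans (Matrix.rank_mul_le_right _ _)
    have h2' : ((LL * M * RR).rank : ℝ) ≤ M.rank := by exact_mod_cast h2
    have h0' : (0 : ℝ) < ρ := by exact_mod_cast h0
    rw [le_div_iff₀ h0'] at h1
    rw [le_div_iff₀ hd0]
    calc Hf F V G * Hf F W H * d = Hf F V G * (Hf F W H * d) := by ring
      _ ≤ Hf F V G * ρ := mul_le_mul_of_nonneg_left hρ' Hf_nonneg
      _ ≤ _ := h1
      _ ≤ _ := h2'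

end values

end Pool.Agent.N703.HF
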