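import Pool.Agent.N703.HF.Spec

/-!
# The fractional Haemers bound is a spectral point: sums
-/

set_option autoImplicit false

open Module Submodule

namespace Pool.Agent.N703.HF

theorem rank_blocks {F : Type*} [Field F] {m n : Type} [Fintype m] [Fintype n] [DecidableEq m]
    [DecidableEq n] (M : Matrix m m F) (M' : Matrix n n F) :
    M.rank + M'.rank ≤ (Matrix.fromBlocks M 0 0 M').rank := by
  obtain ⟨L, R, h⟩ := lr M _ le_rfl
  obtain ⟨L', R', h'⟩ := lr M' _ le_rfl
  have h1 : Matrix.fromBlocks L 0 0 L' * Matrix.fromBlocks M 0 0 M' * Matrix.fromBlocks R 0 0 R' =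
      1 := by
    rw [Matrix.fromBlocks_multiply, Matrix.fromBlocks_multiply]
    simp only [Matrix.zero_mul, Matrix.mul_zero, add_zero, zero_add, h, h', Matrix.fromBlocks_one]
  have h2 : (Matrix.fromBlocks L 0 0 L' * Matrix.fromBlocks M 0 0 M' *
      Matrix.fromBlocks R 0 0 R').rank ≤ (Matrix.fromBlocks M 0 0 M').rank :=
    (Matrix.rank_mul_le_left _ _).trans (Matrix.rank_mul_le_right _ _)
  rw [h1, Matrix.rank_one] at h2
  simpa using h2

section values

variable {F : Type*} [Field F] {V W : Type} [Fintype V] [Fintype W] {G : SimpleGraph V}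
  {H : SimpleGraph W}

/-- subadditive -/
theorem Hf_add_le : Hf F (V ⊕ W) (SimpleGraph.fromRel (Sum.LiftRel G.Adj H.Adj)) ≤
    Hf F V G + Hf F W H := by
  rw [← sub_le_iff_le_add']
  apply le_Hf
  intro d' hd' M' hM'
  rw [sub_le_comm]
  apply le_Hf
  intro d hd M hM
  rw [sub_le_iff_le_add']
  have hdd : 0 < d * d' := Nat.mul_pos hd hd'
  set K1 : Matrix (V × Fin (d * d')) (V × Fin (d * d')) F := Matrix.of fun i j =>
    M (i.1, (finProdFinEquiv.symm i.2).1) (j.1, (finProdFinEquiv.symm j.2).1) *
    (1 : Matrix (Fin d') (Fin d') F) (finProdFinEquiv.symm i.2).2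
      (finProdFinEquiv.symm j.2).2 with hK1
  set K2 : Matrix (W × Fin (d * d')) (W × Fin (d * d')) F := Matrix.of fun i j =>
    M' (i.1, (finProdFinEquiv.symm i.2).2) (j.1, (finProdFinEquiv.symm j.2).2) *
    (1 : Matrix (Fin d) (Fin d) F) (finProdFinEquiv.symm i.2).1
      (finProdFinEquiv.symm j.2).1 with hK2
  set K : Matrix ((V ⊕ W) × Fin (d * d')) ((V ⊕ W) × Fin (d * d')) F :=
    (Matrix.fromBlocks K1 0 0 K2).submatrix (Equiv.sumProdDistrib V W (Fin (d * d')))
      (Equiv.sumProdDistrib V W (Fin (d * d'))) with hK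
  have hne : ∀ i j : Fin (d * d'), i ≠ j →
      (finProdFinEquiv.symm i).1 = (finProdFinEquiv.symm j).1 →
      (finProdFinEquiv.symm i).2 ≠ (finProdFinEquiv.symm j).2 := by
    intro i j hij h1 h2
    exact hij (finProdFinEquiv.symm.injective (Prod.ext h1 h2))
  have hrep : IsRep F (SimpleGraph.fromRel (Sum.LiftRel G.Adj H.Adj)) (d * d') K := by
    constructor
    · intro v i j
      rcases v with v | v
      · change K1 (v, i) (v, j) = _
        simp only [hK1, Matrix.of_apply]
        rw [hM.1, Matrix.one_apply]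
        by_cases hij : i = j
        · subst hij
          simp
        · rw [if_neg hij]
          by_cases h1 : (finProdFinEquiv.symm i).1 = (finProdFinEquiv.symm j).1
          · rw [if_neg (hne i j hij h1), mul_zero]
          · rw [if_neg h1, zero_mul]
      · change K2 (v, i) (v, j) = _
        simp only [hK2, Matrix.of_apply]
        rw [hM'.1, Matrix.one_apply]
        by_cases hij : i = j
        · subst hij
          simp
        · rw [if_neg hij]
          by_cases h1 : (finProdFinEquiv.symm i).1 = (finProdFinEquiv.symm j).1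
          · rw [if_neg (hne i j hij h1), zero_mul]
          · rw [if_neg h1, mul_zero]
    · intro u v huv hadj i j
      rw [SimpleGraph.fromRel_adj] at hadj
      rcases u with u | u <;> rcases v with v | v
      · change K1 (u, i) (v, j) = _
        simp only [hK1, Matrix.of_apply]
        rw [hM.2, zero_mul]
        · intro h
          exact huv (congrArg Sum.inl h)
        · intro h
          exact hadj ⟨huv, Or.inl (Sum.LiftRel.inl h)⟩
      · rfl
      · rfl
      · change K2 (u, i) (v, j) = _
        simp only [hK2, Matrix.of_apply]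
        rw [hM'.2, zero_mul]
        · intro h
          exact huv (congrArg Sum.inr h)
        · intro h
          exact hadj ⟨huv, Or.inl (Sum.LiftRel.inr h)⟩
  refine (Hf_le hdd hrep).trans ?_
  have hr : K.rank ≤ K1.rank + K2.rank := rank_sum K1 K2 K _ _ fun i j => rfl
  have hr1 : K1.rank ≤ M.rank * d' := by
    have := rank_kron M (1 : Matrix (Fin d') (Fin d') F)
      (fun i : V × Fin (d * d') => (i.1, (finProdFinEquiv.symm i.2).1))
      (fun i => (finProdFinEquiv.symm i.2).2)
      (fun i : V × Fin (d * d') => (i.1, (finProdFinEquiv.symm i.2).1))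
      (fun i => (finProdFinEquiv.symm i.2).2)
    rwa [Matrix.rank_one, Fintype.card_fin] at this
  have hr2 : K2.rank ≤ M'.rank * d := by
    have := rank_kron M' (1 : Matrix (Fin d) (Fin d) F)
      (fun i : W × Fin (d * d') => (i.1, (finProdFinEquiv.symm i.2).2))
      (fun i => (finProdFinEquiv.symm i.2).1)
      (fun i : W × Fin (d * d') => (i.1, (finProdFinEquiv.symm i.2).2))
      (fun i => (finProdFinEquiv.symm i.2).1)
    rwa [Matrix.rank_one, Fintype.card_fin] at this
  have hd0 : (0 : ℝ) < d := by exact_mod_cast hd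
  have hd0' : (0 : ℝ) < d' := by exact_mod_cast hd'
  have hr' : (K.rank : ℝ) ≤ M.rank * d' + M'.rank * d := by
    exact_mod_cast hr.trans (add_le_add hr1 hr2)
  have : (M'.rank : ℝ) / d' + M.rank / d =
      (M.rank * d' + M'.rank * d) / ((d * d' : ℕ) : ℝ) := by
    push_cast
    field_simp
    ring
  rw [this]
  gcongr

/-- superadditive -/
theorem le_Hf_sum : Hf F V G + Hf F W H ≤
    Hf F (V ⊕ W) (SimpleGraph.fromRel (Sum.LiftRel G.Adj H.Adj)) := by
  classical
  apply le_Hf
  intro d hd M hM
  have hd0 : (0 : ℝ) < d := by exact_mod_cast hd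
  set M1 : Matrix (V × Fin d) (V × Fin d) F :=
    M.submatrix (fun x => (Sum.inl x.1, x.2)) (fun x => (Sum.inl x.1, x.2)) with hM1
  set M2 : Matrix (W × Fin d) (W × Fin d) F :=
    M.submatrix (fun x => (Sum.inr x.1, x.2)) (fun x => (Sum.inr x.1, x.2)) with hM2
  have hrep1 : IsRep F G d M1 := by
    constructor
    · intro v i j
      exact hM.1 (Sum.inl v) i j
    · intro u v huv hadj i j
      apply hM.2 (Sum.inl u) (Sum.inl v)
      · intro h
        exact huv (Sum.inl_injective h)
      · rw [SimpleGraph.fromRel_adj]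
        rintro ⟨_, h | h⟩
        · exact hadj (Sum.liftRel_inl_inl.1 h)
        · exact hadj (Sum.liftRel_inl_inl.1 h).symm
  have hrep2 : IsRep F H d M2 := by
    constructor
    · intro v i j
      exact hM.1 (Sum.inr v) i j
    · intro u v huv hadj i j
      apply hM.2 (Sum.inr u) (Sum.inr v)
      · intro h
        exact huv (Sum.inr_injective h)
      · rw [SimpleGraph.fromRel_adj]
        rintro ⟨_, h | h⟩
        · exact hadj (Sum.liftRel_inr_inr.1 h)
        · exact hadj (Sum.liftRel_inr_inr.1 h).symm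
  have hblocks : M.submatrix (Equiv.sumProdDistrib V W (Fin d)).symm
      (Equiv.sumProdDistrib V W (Fin d)).symm = Matrix.fromBlocks M1 0 0 M2 := by
    ext x y
    rcases x with x | x <;> rcases y with y | y
    · rfl
    · rw [Matrix.submatrix_apply, Matrix.fromBlocks_apply₁₂, Matrix.zero_apply]
      apply hM.2 (Sum.inl x.1) (Sum.inr y.1) (by simp)
      rw [SimpleGraph.fromRel_adj]
      rintro ⟨_, h | h⟩
      · exact Sum.not_liftRel_inl_inr h
      · exact Sum.not_liftRel_inr_inl h
    · rw [Matrix.submatrix_apply, Matrix.fromBlocks_apply₂₁, Matrix.zero_apply]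
      apply hM.2 (Sum.inr x.1) (Sum.inl y.1) (by simp)
      rw [SimpleGraph.fromRel_adj]
      rintro ⟨_, h | h⟩
      · exact Sum.not_liftRel_inr_inl h
      · exact Sum.not_liftRel_inl_inr h
    · rfl
  have hr : M1.rank + M2.rank ≤ M.rank := by
    refine (rank_blocks M1 M2).trans ?_
    rw [← hblocks]
    exact Matrix.rank_submatrix_le _ _ _
  have hr' : (M1.rank : ℝ) + M2.rank ≤ M.rank := by exact_mod_cast hr
  calc Hf F V G + Hf F W H ≤ (M1.rank : ℝ) / d + (M2.rank : ℝ) / d :=
        add_le_add (Hf_le hd hrep1) (Hf_le hd hrep2)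
    _ = ((M1.rank : ℝ) + M2.rank) / d := by ring
    _ ≤ _ := by gcongr

end values

/-- the value at one vertex -/
theorem Hf_one (F : Type*) [Field F] : Hf F (Fin 1) (⊥ : SimpleGraph (Fin 1)) = 1 := by
  have key : ∀ d : ℕ, ∀ M : Matrix (Fin 1 × Fin d) (Fin 1 × Fin d) F,
      IsRep F (⊥ : SimpleGraph (Fin 1)) d M → M.rank = d := by
    intro d M hM
    have : M = 1 := by
      ext x y
      obtain ⟨u, i⟩ := x
      obtain ⟨v, j⟩ := y
      obtain rfl : u = v := Subsingleton.elim _ _
      rw [hM.1, Matrix.one_apply]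
      simp
    rw [this, Matrix.rank_one]
    simp
  apply le_antisymm
  · have hrep : IsRep F (⊥ : SimpleGraph (Fin 1)) 1 1 :=
      ⟨fun v i j => by simp [Matrix.one_apply],
        fun u v huv _ i j => absurd (Subsingleton.elim u v) huv⟩
    have := Hf_le one_pos hrep
    rw [key 1 1 hrep] at this
    simpa using this
  · apply le_Hf
    intro d hd M hM
    rw [key d M hM, div_self]
    exact_mod_cast hd.ne'

/-- A spectral point: an element of the asymptotic spectrum of graphs. -/
structure IsSpectralPoint (φ : (V : Type) → [Fintype V] → SimpleGraph V → ℝ) : Prop where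
  nonneg : ∀ (V : Type) [Fintype V] (G : SimpleGraph V), 0 ≤ φ V G
  mono : ∀ (V W : Type) [Fintype V] [Fintype W] (G : SimpleGraph V) (H : SimpleGraph W),
    Nonempty (Gᶜ →g Hᶜ) → φ V G ≤ φ W H
  add : ∀ (V W : Type) [Fintype V] [Fintype W] (G : SimpleGraph V) (H : SimpleGraph W),
    φ (V ⊕ W) (SimpleGraph.fromRel (Sum.LiftRel G.Adj H.Adj)) = φ V G + φ W H
  mul : ∀ (V W : Type) [Fintype V] [Fintype W] (G : SimpleGraph V) (H : SimpleGraph W),
    φ (V × W) (SimpleGraph.fromRel (fun x y : V × W =>
      (x.1 = y.1 ∨ G.Adj x.1 y.1) ∧ (x.2 = y.2 ∨ H.Adj x.2 y.2))) = φ V G * φ W H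
  one : φ (Fin 1) (⊥ : SimpleGraph (Fin 1)) = 1

/-- The value at the complement of the Kneser graph `K_{p:q}` is `p / q` for all `p ≥ 2 q ≥ 2`. -/
def KneserNormalised (φ : (V : Type) → [Fintype V] → SimpleGraph V → ℝ) : Prop :=
  ∀ p q : ℕ, 1 ≤ q → 2 * q ≤ p →
    φ {s : Finset (Fin p) // s.card = q}
      (SimpleGraph.fromRel (fun s t : {s : Finset (Fin p) // s.card = q} => Disjoint s.1 t.1))ᶜ =
      (p : ℝ) / (q : ℝ)

theorem Hf_isSpectralPoint (F : Type*) [Field F] : IsSpectralPoint (fun V _ G => Hf F V G) where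
  nonneg V _ G := Hf_nonneg
  mono V W _ _ G H h := by
    obtain ⟨f⟩ := h
    exact Hf_mono f
  add V W _ _ G H := le_antisymm Hf_add_le le_Hf_sum
  mul V W _ _ G H := le_antisymm Hf_mul_le le_Hf_mul_prod
  one := Hf_one F

theorem Hf_kneserNormalised (F : Type*) [Field F] : KneserNormalised (fun V _ G => Hf F V G) :=
  fun p q hq hpq => kneser F p q hq hpq

end Pool.Agent.N703.HF
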